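import Mathlib

set_option autoImplicit false
set_option maxRecDepth 100000

/-!
# Gonality of the product of a tree and a graph: a product below the expected gonality
-/

namespace Pool.Agent.Results.MP_30555c_co.PathProduct

/-- A multigraph without loops on the vertex set `V`: `mult u v` is the number of edges joining
`u` and `v`. -/
structure MGraph (V : Type) where
  /-- The number of edges joining two vertices. -/
  mult : V → V → ℕ
  /-- Symmetry. -/
  symm : ∀ u v, mult u v = mult v u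
  /-- There are no loops. -/
  loopless : ∀ v, mult v v = 0

/-- The underlying simple graph. -/
def MGraph.support {V : Type} (G : MGraph V) : SimpleGraph V where
  Adj u v := 0 < G.mult u v
  symm := ⟨fun u v h => by rw [G.symm]; exact h⟩
  loopless := ⟨fun v h => by rw [G.loopless] at h; exact lt_irrefl _ h⟩

/-- A simple graph as a multigraph. -/
def ofSimple {V : Type} (T : SimpleGraph V) [DecidableRel T.Adj] : MGraph V where
  mult u v := if T.Adj u v then 1 else 0
  symm u v := by simp only [T.adj_comm]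
  loopless v := by simp

/-- The Cartesian product. -/
def prod {V W : Type} [DecidableEq V] [DecidableEq W] (G : MGraph V) (H : MGraph W) :
    MGraph (V × W) where
  mult a b := (if a.2 = b.2 then G.mult a.1 b.1 else 0) + (if a.1 = b.1 then H.mult a.2 b.2 else 0)
  symm a b := by
    rw [G.symm a.1, H.symm a.2]
    simp only [eq_comm]
  loopless a := by simp [G.loopless, H.loopless]

section
variable {V : Type} [Fintype V] [DecidableEq V] (G : MGraph V)

/-- The divisor obtained from `D` by firing each vertex `v` exactly `f v` times (an integer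
combination of columns of the Laplacian is subtracted). -/
def fire (D : V → ℤ) (f : V → ℤ) : V → ℤ :=
  fun u => D u - ∑ w, (G.mult u w : ℤ) * (f u - f w)

/-- Equivalence of divisors. -/
def DivEquiv (D E : V → ℤ) : Prop := ∃ f : V → ℤ, E = fire G D f

omit [Fintype V] [DecidableEq V] in
/-- Effective divisors. -/
def Effective (D : V → ℤ) : Prop := ∀ v, 0 ≤ D v

/-- `D` is an effective divisor of positive rank: it is effective and for every vertex `v` the
divisor `D - 1_v` is equivalent to an effective divisor. -/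
def PosRank (D : V → ℤ) : Prop :=
  Effective D ∧ ∀ v, ∃ E, DivEquiv G (D - Pi.single v 1) E ∧ Effective E

/-- The gonality of `G`: the least degree of an effective divisor of positive rank. -/
noncomputable def gon : ℕ := sInf {d : ℕ | ∃ D : V → ℤ, PosRank G D ∧ ∑ v, D v = d}

end

/-! ### The example -/

/-- The path on three vertices. -/
def T : SimpleGraph (Fin 3) where
  Adj i j := i.val + 1 = j.val ∨ j.val + 1 = i.val
  symm := ⟨fun _ _ h => h.symm⟩
  loopless := ⟨fun i h => by rcases h with h | h <;> omega⟩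

instance : DecidableRel T.Adj := fun i j => by unfold T; infer_instance

lemma T_tree : T.IsTree := by
  rw [SimpleGraph.isTree_iff_connected_and_card]
  constructor
  · have h1 : T.Reachable 0 1 := SimpleGraph.Adj.reachable (by decide)
    have h2 : T.Reachable 1 2 := SimpleGraph.Adj.reachable (by decide)
    have h : ∀ v : Fin 3, T.Reachable v 0 := by
      intro v
      fin_cases v
      · exact SimpleGraph.Reachable.refl _
      · exact h1.symm
      · exact (h1.trans h2).symm
    exact { preconnected := fun u v => (h u).trans (h v).symm, nonempty := ⟨0⟩ }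
  · rw [Nat.card_eq_fintype_card, ← SimpleGraph.edgeFinset_card, Nat.card_eq_fintype_card]
    decide +kernel

/-- The multiplicities of `H`: a double edge `01` and the path `0 2 3 4 5`. -/
def hm : Fin 6 → Fin 6 → ℕ :=
  ![![0, 2, 1, 0, 0, 0],
    ![2, 0, 0, 0, 0, 0],
    ![1, 0, 0, 1, 0, 0],
    ![0, 0, 1, 0, 1, 0],
    ![0, 0, 0, 1, 0, 1],
    ![0, 0, 0, 0, 1, 0]]

/-- The graph `H`: six vertices, a double edge `01` and the simple edges `02, 23, 34, 45`. -/
def H : MGraph (Fin 6) where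
  mult := hm
  symm := by decide
  loopless := by decide

lemma H_connected : H.support.Connected := by
  have e01 : H.support.Reachable 0 1 := SimpleGraph.Adj.reachable (by
    show 0 < hm 0 1; decide)
  have e02 : H.support.Reachable 0 2 := SimpleGraph.Adj.reachable (by
    show 0 < hm 0 2; decide)
  have e23 : H.support.Reachable 2 3 := SimpleGraph.Adj.reachable (by
    show 0 < hm 2 3; decide)
  have e34 : H.support.Reachable 3 4 := SimpleGraph.Adj.reachable (by
    show 0 < hm 3 4; decide)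
  have e45 : H.support.Reachable 4 5 := SimpleGraph.Adj.reachable (by
    show 0 < hm 4 5; decide)
  have h : ∀ v : Fin 6, H.support.Reachable v 0 := by
    intro v
    fin_cases v
    · exact SimpleGraph.Reachable.refl _
    · exact e01.symm
    · exact e02.symm
    · exact (e02.trans e23).symm
    · exact ((e02.trans e23).trans e34).symm
    · exact (((e02.trans e23).trans e34).trans e45).symm
  exact { preconnected := fun u v => (h u).trans (h v).symm, nonempty := ⟨0⟩ }

/-- The degree is invariant. -/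
lemma sum_fire {V : Type} [Fintype V] [DecidableEq V] (G : MGraph V) (D f : V → ℤ) :
    ∑ u, fire G D f u = ∑ u, D u := by
  unfold fire
  rw [Finset.sum_sub_distrib]
  have h : ∑ u, ∑ w, (G.mult u w : ℤ) * (f u - f w) = 0 := by
    have h1 : ∑ u, ∑ w, (G.mult u w : ℤ) * (f u - f w)
        = ∑ u, ∑ w, (G.mult u w : ℤ) * f u - ∑ u, ∑ w, (G.mult u w : ℤ) * f w := by
      rw [← Finset.sum_sub_distrib]
      apply Finset.sum_congr rfl
      intro u _
      rw [← Finset.sum_sub_distrib]
      apply Finset.sum_congr rfl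
      intro w _
      ring
    have h2 : ∑ u, ∑ w, (G.mult u w : ℤ) * f w = ∑ u, ∑ w, (G.mult u w : ℤ) * f u := by
      rw [Finset.sum_comm]
      apply Finset.sum_congr rfl
      intro u _
      apply Finset.sum_congr rfl
      intro w _
      rw [G.symm]
    rw [h1, h2, sub_self]
  rw [h, sub_zero]

/-- The parity of the number of chips on the vertex `1` of `H` is invariant. -/
lemma parity (D f : Fin 6 → ℤ) : ∃ k : ℤ, fire H D f 1 = D 1 - 2 * k := by
  refine ⟨f 1 - f 0, ?_⟩
  unfold fire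
  have : ∀ w : Fin 6, (H.mult 1 w : ℤ) = if w = 0 then 2 else 0 := by decide
  simp only [this, Fin.sum_univ_succ, Fin.sum_univ_zero]
  simp

lemma gonH : gon H = 2 := by
  unfold gon
  apply le_antisymm
  · apply Nat.sInf_le
    show ∃ D : Fin 6 → ℤ, PosRank H D ∧ ∑ v, D v = (2 : ℕ)
    refine ⟨![2, 0, 0, 0, 0, 0], ⟨by unfold Effective; decide, ?_⟩, by decide⟩
    have h : ∀ v : Fin 6, Effective (fire H (![2, 0, 0, 0, 0, 0] - Pi.single v 1)
        ((![![0, 0, 0, 0, 0, 0], ![0, -1, 0, 0, 0, 0], ![1, 1, 0, 0, 0, 0], ![2, 2, 1, 0, 0, 0],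
          ![3, 3, 2, 1, 0, 0], ![4, 4, 3, 2, 1, 0]] : Fin 6 → Fin 6 → ℤ) v)) := by
      unfold Effective
      decide +kernel
    exact fun v => ⟨_, ⟨_, rfl⟩, h v⟩
  · apply le_csInf
    · refine ⟨6, ?_⟩
      show ∃ D : Fin 6 → ℤ, PosRank H D ∧ ∑ v, D v = (6 : ℕ)
      refine ⟨fun _ => 1, ⟨fun _ => by norm_num, fun v => ⟨_, ⟨0, rfl⟩, ?_⟩⟩, by decide⟩
      intro u
      unfold fire
      simp only [Pi.zero_apply, sub_self, mul_zero, Finset.sum_const_zero, sub_zero, Pi.sub_apply]
      by_cases h : u = v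
      · subst h; simp
      · rw [Pi.single_eq_of_ne h]; norm_num
    · rintro d ⟨D, ⟨hD, hr⟩, hsum⟩
      by_contra hlt
      push Not at hlt
      -- the total is at most one
      have hs : ∑ v, D v ≤ 1 := by rw [hsum]; exact_mod_cast Nat.lt_succ_iff.mp hlt
      have key : ∀ v, D v = 0 ∨ (D v = 1 ∧ ∀ u, u ≠ v → D u = 0) := by
        intro v
        have h1 : D v + ∑ u ∈ Finset.univ.erase v, D u ≤ 1 := by
          rw [Finset.add_sum_erase _ _ (Finset.mem_univ v)]; exact hs
        have h2 : 0 ≤ ∑ u ∈ Finset.univ.erase v, D u := Finset.sum_nonneg (fun u _ => hD u)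
        have h3 := hD v
        rcases (by omega : D v = 0 ∨ D v = 1) with h | h
        · exact Or.inl h
        · right
          refine ⟨h, fun u hu => ?_⟩
          have h4 : ∑ u ∈ Finset.univ.erase v, D u = 0 := by omega
          exact (Finset.sum_eq_zero_iff_of_nonneg (fun u _ => hD u)).mp h4 u
            (Finset.mem_erase.mpr ⟨hu, Finset.mem_univ u⟩)
      -- use the vertex `1` or the vertex `0`
      have fin : ∀ v : Fin 6, ∀ E : Fin 6 → ℤ, DivEquiv H (D - Pi.single v 1) E → Effective E →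
          ∀ u, E u = 0 := by
        rintro v E ⟨f, rfl⟩ hE
        have h1 := sum_fire H (D - Pi.single v 1) f
        have h2 : ∑ u, (D - Pi.single v 1 : Fin 6 → ℤ) u = ∑ u, D u - 1 := by
          simp [Finset.sum_sub_distrib]
        rw [h2] at h1
        have h3 : ∑ u, fire H (D - Pi.single v 1) f u = 0 := by
          apply le_antisymm
          · rw [h1]; omega
          · exact Finset.sum_nonneg (fun u _ => hE u)
        intro u
        exact (Finset.sum_eq_zero_iff_of_nonneg (fun u _ => hE u)).mp h3 u (Finset.mem_univ u)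
      rcases key 1 with h | ⟨h, h'⟩
      · obtain ⟨E, hE, hE'⟩ := hr 1
        have h5 := fin 1 E hE hE' 1
        obtain ⟨f, rfl⟩ := hE
        obtain ⟨k, hk⟩ := parity (D - Pi.single 1 1) f
        rw [h5] at hk
        simp only [Pi.sub_apply, Pi.single_eq_same, h] at hk
        omega
      · obtain ⟨E, hE, hE'⟩ := hr 0
        have h5 := fin 0 E hE hE' 1
        obtain ⟨f, rfl⟩ := hE
        obtain ⟨k, hk⟩ := parity (D - Pi.single 0 1) f
        rw [h5] at hk
        simp only [Pi.sub_apply, h] at hk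
        rw [Pi.single_eq_of_ne (by decide)] at hk
        omega

/-- A divisor of degree five on the product. -/
def D₀ (a : Fin 3 × Fin 6) : ℤ :=
  (![![2, 1, 0, 0, 0, 0], ![0, 0, 1, 0, 0, 0], ![0, 0, 1, 0, 0, 0]] : Fin 3 → Fin 6 → ℤ) a.1 a.2

/-- The firing scripts. -/
def script (v : Fin 3 × Fin 6) (a : Fin 3 × Fin 6) : ℤ :=
  (![![![![0, 0, 0, 0, 0, 0], ![0, 0, 0, 0, 0, 0], ![0, 0, 0, 0, 0, 0]],
      ![![0, 0, 0, 0, 0, 0], ![0, 0, 0, 0, 0, 0], ![0, 0, 0, 0, 0, 0]],
      ![![1, 1, 0, 0, 0, 0], ![0, 0, 0, 0, 0, 0], ![0, 0, 0, 0, 0, 0]],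
      ![![2, 2, 1, 0, 0, 0], ![1, 1, 1, 0, 0, 0], ![1, 1, 1, 0, 0, 0]],
      ![![3, 3, 2, 1, 0, 0], ![2, 2, 2, 1, 0, 0], ![2, 2, 2, 1, 0, 0]],
      ![![4, 4, 3, 2, 1, 0], ![3, 3, 3, 2, 1, 0], ![3, 3, 3, 2, 1, 0]]],
    ![![![1, 1, 1, 1, 1, 1], ![0, 0, 1, 1, 1, 1], ![0, 0, 1, 1, 1, 1]],
      ![![1, 1, 1, 1, 1, 1], ![0, 0, 1, 1, 1, 1], ![0, 0, 1, 1, 1, 1]],
      ![![0, 0, 0, 0, 0, 0], ![0, 0, 0, 0, 0, 0], ![0, 0, 0, 0, 0, 0]],
      ![![2, 2, 1, 0, 0, 0], ![1, 1, 1, 0, 0, 0], ![1, 1, 1, 0, 0, 0]],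
      ![![3, 3, 2, 1, 0, 0], ![2, 2, 2, 1, 0, 0], ![2, 2, 2, 1, 0, 0]],
      ![![4, 4, 3, 2, 1, 0], ![3, 3, 3, 2, 1, 0], ![3, 3, 3, 2, 1, 0]]],
    ![![![1, 1, 1, 1, 1, 1], ![0, 0, 1, 1, 1, 1], ![0, 0, 1, 1, 1, 1]],
      ![![2, 2, 1, 1, 1, 1], ![1, 1, 1, 1, 1, 1], ![0, 0, 1, 1, 1, 1]],
      ![![0, 0, 0, 0, 0, 0], ![0, 0, 0, 0, 0, 0], ![0, 0, 0, 0, 0, 0]],
      ![![2, 2, 1, 0, 0, 0], ![1, 1, 1, 0, 0, 0], ![1, 1, 1, 0, 0, 0]],
      ![![3, 3, 2, 1, 0, 0], ![2, 2, 2, 1, 0, 0], ![2, 2, 2, 1, 0, 0]],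
      ![![4, 4, 3, 2, 1, 0], ![3, 3, 3, 2, 1, 0], ![3, 3, 3, 2, 1, 0]]]] : Fin 3 → Fin 6 → Fin 3 → Fin 6 → ℤ) v.1 v.2 a.1 a.2

lemma D₀_posRank : PosRank (prod (ofSimple T) H) D₀ := by
  refine ⟨by unfold Effective; decide +kernel, ?_⟩
  have h : ∀ v, Effective (fire (prod (ofSimple T) H) (D₀ - Pi.single v 1) (script v)) := by
    unfold Effective
    decide +kernel
  exact fun v => ⟨_, ⟨_, rfl⟩, h v⟩

/-- Q1: yes. For the path `T` on three vertices (a tree) and the connected graph `H` with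
`|V(H)| = 6` and `gon(H) = 2` one has `gon(T □ H) ≤ 5`, while the expected gonality is
`min(|V(H)|, |V(T)| gon(H)) = 6`. -/
theorem result :
    ∃ (T : SimpleGraph (Fin 3)) (_ : DecidableRel T.Adj) (H : MGraph (Fin 6)),
      T.IsTree ∧ H.support.Connected ∧ gon H = 2 ∧ gon (prod (ofSimple T) H) ≤ 5 ∧
      gon (prod (ofSimple T) H) ≠ min (Fintype.card (Fin 6)) (Fintype.card (Fin 3) * gon H) := by
  have h5 : gon (prod (ofSimple T) H) ≤ 5 := by
    apply Nat.sInf_le
    show ∃ D : Fin 3 × Fin 6 → ℤ, PosRank (prod (ofSimple T) H) D ∧ ∑ v, D v = (5 : ℕ)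
    exact ⟨D₀, D₀_posRank, by decide +kernel⟩
  refine ⟨T, inferInstance, H, T_tree, H_connected, gonH, h5, ?_⟩
  rw [gonH, Fintype.card_fin, Fintype.card_fin]
  intro h
  rw [h] at h5
  norm_num at h5

end Pool.Agent.Results.MP_30555c_co.PathProduct
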